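import Mathlib
import Pool.Agent.Q23.HallTwoB

/-!
# MP_e0c8e7_al: the answer to Q1 is no (for `m = 2`)

There is a finitely generated soluble group `G` in which *every* subgroup `⟨x, x^y⟩` has a normal
subgroup of exponent dividing `2` with nilpotent quotient, while `G` has no normal subgroup of
exponent dividing `2` with finite-by-nilpotent quotient.
-/

namespace Pool.Agent.Results.MP_e0c8e7_al.ExponentTwo

/-- The class `𝔈_m 𝔑`: `G` has a normal subgroup `K` of exponent dividing `m` such that `G / K` is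
nilpotent. -/
def ExpByNilpotent (m : ℕ) (G : Type) [Group G] : Prop :=
  ∃ (K : Subgroup G) (_ : K.Normal), (∀ x ∈ K, x ^ m = 1) ∧ Group.IsNilpotent (G ⧸ K)

/-- The class `𝔉𝔑` of finite-by-nilpotent groups. -/
def FiniteByNilpotent (G : Type) [Group G] : Prop :=
  ∃ (F : Subgroup G) (_ : F.Normal), Finite F ∧ Group.IsNilpotent (G ⧸ F)

/-- The class `𝔈_m (𝔉𝔑)`: `G` has a normal subgroup `K` of exponent dividing `m` such that
`G / K` is finite-by-nilpotent. -/
def ExpByFiniteByNilpotent (m : ℕ) (G : Type) [Group G] : Prop :=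
  ∃ (K : Subgroup G) (_ : K.Normal), (∀ x ∈ K, x ^ m = 1) ∧ FiniteByNilpotent (G ⧸ K)

/-- `G` has a soluble normal subgroup of finite index. -/
def SolubleByFinite (G : Type) [Group G] : Prop :=
  ∃ K : Subgroup G, K.Normal ∧ K.FiniteIndex ∧ Group.IsSolvable K

/-- The class `(𝔛, ∞)*`: every infinite subset of `G` contains two distinct elements `x`, `y`
such that `⟨x, x^y⟩` lies in `𝔛`, where `x^y = y⁻¹ x y`. -/
def InfStar (X : ∀ (H : Type) [Group H], Prop) (G : Type) [Group G] : Prop :=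
  ∀ S : Set G, S.Infinite → ∃ x ∈ S, ∃ y ∈ S, x ≠ y ∧
    X (Subgroup.closure ({x, y⁻¹ * x * y} : Set G))

open Q23.Hall
open scoped commutatorElement

lemma all_pairs (x y : G) :
    ExpByNilpotent 2 (Subgroup.closure ({x, y⁻¹ * x * y} : Set G)) := by
  classical
  set H := Subgroup.closure ({x, y⁻¹ * x * y} : Set G) with hH
  set v := (x : W).g with hv
  let F : Finset L := (x : W).f.support ∪ ((y⁻¹ * x * y : G) : W).f.support
  obtain ⟨k, hk⟩ := periodic F v
  have hr : ((y⁻¹ * x * y : G) : W).g = v := by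
    simp only [Subgroup.coe_mul, Subgroup.coe_inv, mul_g, inv_g]
    rw [hv]; abel
  have hle : H ≤ (RB F v).comap G.subtype := by
    rw [hH, Subgroup.closure_le]
    intro w hw
    rcases hw with rfl | hw
    · refine ⟨mem_ES_of_support _ _ _ ?_, 1, by rw [one_smul]; rfl⟩
      intro g hg
      exact ⟨g, Finset.mem_union_left _ hg, 0, by simp⟩
    · have hw' : w = y⁻¹ * x * y := hw
      subst hw'
      refine ⟨mem_ES_of_support _ _ _ ?_, 1, by rw [one_smul]; exact hr⟩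
      intro g hg
      exact ⟨g, Finset.mem_union_right _ hg, 0, by simp⟩
  refine ⟨(⊤ : Subgroup H).lowerCentralSeries (2 ^ k), inferInstance, ?_, ?_⟩
  · intro h hh
    have h1 : G.subtype (H.subtype h) ∈ (RB F v).lowerCentralSeries (2 ^ k) := by
      have h2 : (G.subtype.comp H.subtype) h ∈
          ((⊤ : Subgroup H).lowerCentralSeries (2 ^ k)).map (G.subtype.comp H.subtype) :=
        ⟨h, hh, rfl⟩
      rw [Subgroup.map_lowerCentralSeries] at h2
      have h3 : (⊤ : Subgroup H).map (G.subtype.comp H.subtype) ≤ RB F v := by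
        rintro _ ⟨h, _, rfl⟩
        exact hle h.2
      have h4 : ((⊤ : Subgroup H).map (G.subtype.comp H.subtype)).lowerCentralSeries (2 ^ k) ≤
        (RB F v).lowerCentralSeries (2 ^ k) := Subgroup.lowerCentralSeries_mono _ h3
      exact h4 h2
    obtain ⟨j, hj⟩ : ∃ j, 2 ^ k = j + 1 := ⟨2 ^ k - 1, by have := Nat.one_le_two_pow (n := k); omega⟩
    rw [hj] at h1
    have h2 := lcs_le_V F v j h1
    rw [← hj] at h2
    have h3 := sq_V hk h2
    apply Subtype.ext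
    apply Subtype.ext
    exact h3
  · rw [Subgroup.nilpotent_iff_lowerCentralSeries]
    refine ⟨2 ^ k, ?_⟩
    have h1 : (⊤ : Subgroup (H ⧸ (⊤ : Subgroup H).lowerCentralSeries (2 ^ k))) =
        (⊤ : Subgroup H).map (QuotientGroup.mk' _) := by
      rw [← MonoidHom.range_eq_map, QuotientGroup.range_mk']
    rw [h1, ← Subgroup.map_lowerCentralSeries, eq_bot_iff]
    rintro _ ⟨h, hh, rfl⟩
    rw [Subgroup.mem_bot]
    exact (QuotientGroup.eq_one_iff _).2 hh

lemma iter_g (a b : W) (ha : a.g = 0) (j : ℕ) : (Q23.Line.iter a b j).g = 0 := by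
  cases j with
  | zero => exact ha
  | succ j => exact comm_g _ _

lemma iter_f (a : W) (c : L) (ha : a.g = 0) (j : ℕ) :
    (Q23.Line.iter a (inr c) j).f = (D c ^ j) a.f := by
  induction j with
  | zero => rfl
  | succ j ih =>
    rw [Q23.Line.iter, comm_f, ih]
    have h1 : (inr c).g = c := rfl
    have h2 : (inr c).f = 0 := rfl
    rw [h1, h2, map_zero, add_zero, add_zero, pow_succ', Module.End.mul_apply, D_apply]

lemma chi_one (n : ℕ) (d : L) (h : ∃ e : L, d = x n + ((2 : ℤ) ^ (2 * n + 2)) • e) : χ d n = 1 := by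
  unfold χ
  rw [if_pos h]

lemma chi_zero (n : ℕ) (d : L) (h : ¬ ∃ e : L, d = x n + ((2 : ℤ) ^ (2 * n + 2)) • e) :
    χ d n = 0 := by
  unfold χ
  rw [if_neg h]

/-- the arithmetic: a suitable multiple `M • e` and a suitable coordinate `n` -/
lemma arith (M : ℕ) (hM : 0 < M) (c : ℕ) : ∃ (k n : ℕ) (e : L), c ≤ 2 ^ k ∧
    χ ((M : ℤ) • e + ((2 : ℤ) ^ k) • (1, 0)) n = 1 ∧
    χ (-((M : ℤ) • e + ((2 : ℤ) ^ k) • (1, 0))) n = 0 ∧
    χ ((M : ℤ) • e - ((2 : ℤ) ^ k) • (1, 0)) n = 0 ∧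
    χ (-((M : ℤ) • e - ((2 : ℤ) ^ k) • (1, 0))) n = 0 := by
  obtain ⟨j, M', hM', rfl⟩ := Nat.exists_eq_two_pow_mul_odd hM.ne'
  set k := j + c with hk
  set n := k + 1 with hn
  have hc : c ≤ 2 ^ k := by
    have h1 : c ≤ 2 ^ c := Nat.lt_two_pow_self.le
    have h2 : 2 ^ c ≤ 2 ^ k := Nat.pow_le_pow_right (by norm_num) (by omega)
    omega
  -- inverse of `M'` modulo `2 ^ (2 n + 2)`
  have hcop : IsCoprime (M' : ℤ) ((2 : ℤ) ^ (2 * n + 2)) := by
    apply IsCoprime.pow_right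
    have : Nat.Coprime M' 2 := Nat.Coprime.symm (Nat.coprime_two_left.2 hM')
    exact_mod_cast Nat.isCoprime_iff_coprime.2 this
  obtain ⟨s, t, hst⟩ := hcop
  -- coordinates of e
  have hj1 : (2 : ℤ) ^ k = 2 ^ j * 2 ^ c := by rw [hk, pow_add]
  have hj2 : (2 : ℤ) ^ n = 2 ^ j * 2 ^ (c + 1) := by rw [hn, hk, add_assoc, pow_add]
  let e : L := (s * (2 ^ (c + 1) - 2 ^ c), s * (2 ^ (c + 1) * (n + 1)))
  have key : ((2 ^ j * M' : ℕ) : ℤ) • e + ((2 : ℤ) ^ k) • ((1 : ℤ), (0 : ℤ)) =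
      x n + ((2 : ℤ) ^ (2 * n + 2)) • ((-(t * (2 ^ n - 2 ^ k)), -(t * (2 ^ n * (n + 1)))) : L) := by
    have h1 : (M' : ℤ) * s = 1 - t * 2 ^ (2 * n + 2) := by linarith
    ext
    · simp only [e, x, Prod.smul_mk, Prod.mk_add_mk, smul_eq_mul]
      push_cast
      have : (2 : ℤ) ^ j * M' * (s * (2 ^ (c + 1) - 2 ^ c)) =
        (M' * s) * (2 ^ j * 2 ^ (c + 1) - 2 ^ j * 2 ^ c) := by ring
      rw [this, ← hj1, ← hj2, h1]; ring
    · simp only [e, x, Prod.smul_mk, Prod.mk_add_mk, smul_eq_mul]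
      push_cast
      have : (2 : ℤ) ^ j * M' * (s * (2 ^ (c + 1) * (n + 1))) =
        (M' * s) * ((2 ^ j * 2 ^ (c + 1)) * (n + 1)) := by ring
      rw [this, ← hj2, h1]; ring
  have p1 : (2 : ℤ) ^ n = 2 * 2 ^ k := by rw [hn, pow_succ]; ring
  have p2 : (2 : ℤ) ^ (2 * n + 2) = 2 ^ n * (4 * 2 ^ n) := by
    rw [show 2 * n + 2 = n + (n + 2) by ring, pow_add, pow_add]; ring
  have p3 : (0 : ℤ) < 2 ^ k := by positivity
  have p4 : (0 : ℤ) < 2 ^ n := by positivity
  refine ⟨k, n, e, hc, chi_one _ _ ⟨_, key⟩, chi_zero _ _ ?_, chi_zero _ _ ?_, chi_zero _ _ ?_⟩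
  · rintro ⟨e', he'⟩
    rw [key] at he'
    have h1 := congrArg Prod.fst he'
    simp only [x, Prod.smul_mk, Prod.mk_add_mk, smul_eq_mul, Prod.fst_neg, Prod.neg_mk,
      Prod.fst_add, Prod.smul_fst] at h1
    have h2 : (2 * 2 ^ n : ℤ) = 2 ^ (2 * n + 2) * (t * (2 ^ n - 2 ^ k) - e'.1) := by linarith
    have h3 := Int.eq_zero_of_abs_lt_dvd (m := 2 ^ (2 * n + 2)) ⟨_, h2⟩ (by
      rw [abs_of_pos (by positivity), p2]; nlinarith)
    linarith
  · rintro ⟨e', he'⟩
    have h0 : ((2 ^ j * M' : ℕ) : ℤ) • e - ((2 : ℤ) ^ k) • ((1 : ℤ), (0 : ℤ)) =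
      (((2 ^ j * M' : ℕ) : ℤ) • e + ((2 : ℤ) ^ k) • ((1 : ℤ), (0 : ℤ))) -
        (2 * (2 : ℤ) ^ k) • ((1 : ℤ), (0 : ℤ)) := by
      rw [two_mul, add_smul]; abel
    rw [h0, key] at he'
    have h1 := congrArg Prod.fst he'
    simp only [x, Prod.smul_mk, Prod.mk_add_mk, smul_eq_mul, Prod.mk_sub_mk,
      Prod.fst_add, Prod.smul_fst] at h1
    have h2 : (2 * 2 ^ k : ℤ) = 2 ^ (2 * n + 2) * (-(t * (2 ^ n - 2 ^ k)) - e'.1) := by linarith
    have h3 := Int.eq_zero_of_abs_lt_dvd (m := 2 ^ (2 * n + 2)) ⟨_, h2⟩ (by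
      rw [abs_of_pos (by positivity), p2]; nlinarith)
    linarith
  · rintro ⟨e', he'⟩
    have h0 : -(((2 ^ j * M' : ℕ) : ℤ) • e - ((2 : ℤ) ^ k) • ((1 : ℤ), (0 : ℤ))) =
      -(((2 ^ j * M' : ℕ) : ℤ) • e + ((2 : ℤ) ^ k) • ((1 : ℤ), (0 : ℤ))) +
        (2 * (2 : ℤ) ^ k) • ((1 : ℤ), (0 : ℤ)) := by
      rw [two_mul, add_smul]; abel
    rw [h0, key] at he'
    have h1 := congrArg Prod.fst he'
    simp only [x, Prod.smul_mk, Prod.mk_add_mk, smul_eq_mul, Prod.fst_neg, Prod.neg_mk,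
      Prod.fst_add, Prod.smul_fst] at h1
    have h2 : (2 * 2 ^ n - 2 * 2 ^ k : ℤ) =
        2 ^ (2 * n + 2) * (t * (2 ^ n - 2 ^ k) - e'.1) := by linarith
    have h3 := Int.eq_zero_of_abs_lt_dvd (m := 2 ^ (2 * n + 2)) ⟨_, h2⟩ (by
      rw [abs_of_pos (by linarith), p2]; nlinarith)
    linarith

lemma not_class : ¬ ExpByFiniteByNilpotent 2 G := by
  rintro ⟨K, hK, hK2, F, hF, hfin, hnil⟩
  obtain ⟨c, hc⟩ := Subgroup.nilpotent_iff_lowerCentralSeries.1 hnil
  -- a positive multiple acting trivially on `F`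
  let act : (G ⧸ K) →* MulAut F := MulAut.conjNormal
  have : Finite (MulAut F) := Finite.of_injective (fun φ : MulAut F => (φ : F → F))
    (fun a b h => MulEquiv.ext (congrFun h))
  set M := Nat.card (MulAut F) with hMdef
  have hM : 0 < M := Nat.card_pos
  obtain ⟨k, n, e, hck, h1, h2, h3, h4⟩ := arith M hM c
  let U : G := ⟨u0, u0_mem_G⟩
  let A : G := ⟨inr (1, 0), inr_mem_G _⟩
  let C : G := ⟨inr ((M : ℤ) • e), inr_mem_G _⟩
  let C' : G := ⟨inr e, inr_mem_G _⟩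
  have hCC : C = C' ^ M := by
    apply Subtype.ext
    show inrHom (Multiplicative.ofAdd ((M : ℤ) • e)) = (inrHom (Multiplicative.ofAdd e)) ^ M
    rw [← map_pow, ← ofAdd_nsmul, natCast_zsmul]
  set v := Q23.Line.iter U A (2 ^ k) with hv
  have hvF : QuotientGroup.mk' K v ∈ F := by
    rw [← QuotientGroup.eq_one_iff]
    have h5 := Q23.Line.iter_mem_lcs ((QuotientGroup.mk' F) ((QuotientGroup.mk' K) U))
      ((QuotientGroup.mk' F) ((QuotientGroup.mk' K) A)) (2 ^ k)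
    have h6 := Subgroup.lowerCentralSeries_antitone (⊤ : Subgroup ((G ⧸ K) ⧸ F)) hck
    rw [hc] at h6
    have h7 := h6 h5
    rw [← Q23.Line.iter_map, ← Q23.Line.iter_map] at h7
    exact h7
  have hact : act (QuotientGroup.mk' K C) = 1 := by
    rw [hCC, map_pow, map_pow]
    exact pow_card_eq_one'
  have hcomm : QuotientGroup.mk' K (C * v * C⁻¹ * v⁻¹) = 1 := by
    have h5 := congrArg (fun φ : MulAut F => ((φ ⟨_, hvF⟩ : F) : G ⧸ K)) hact
    simp only [act, MulAut.conjNormal_apply, MulAut.one_apply] at h5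
    rw [map_mul, map_mul, map_mul, map_inv, map_inv, h5, mul_inv_cancel]
  have hin : C * v * C⁻¹ * v⁻¹ ∈ K := by
    rw [← QuotientGroup.eq_one_iff]
    exact hcomm
  have hsq := hK2 _ hin
  have hvW : (v : W) = Q23.Line.iter u0 (inr (1, 0)) (2 ^ k) := by
    have := Q23.Line.iter_map G.subtype U A (2 ^ k)
    exact this
  have hvg : (v : W).g = 0 := by rw [hvW]; exact iter_g _ _ rfl _
  have hvf : (v : W).f = Finsupp.single 0 1 + Finsupp.single (((2 : ℤ) ^ k) • ((1 : ℤ), (0 : ℤ))) 1 := by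
    rw [hvW, iter_f _ _ rfl, Dpow_two]
    show Finsupp.single 0 1 + tr _ (Finsupp.single 0 1) = _
    rw [tr_single, zero_add]
  set d : L := (M : ℤ) • e with hd
  set N : L := ((2 : ℤ) ^ k) • ((1 : ℤ), (0 : ℤ)) with hN
  have hw : ((C * v * C⁻¹ * v⁻¹ : G) : W).f = (Finsupp.single d 1 + Finsupp.single (N + d) 1) +
      (Finsupp.single 0 1 + Finsupp.single N 1) := by
    show (inr d * (v : W) * (inr d)⁻¹ * (v : W)⁻¹).f = _
    have hg1 : (inr d * (v : W)).g = d := by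
      rw [mul_g, hvg]; exact add_zero _
    have hg2 : (inr d * (v : W) * (inr d)⁻¹).g = 0 := by
      rw [mul_g, hg1, inv_g]; exact add_neg_cancel _
    have e1 : (inr d).f = 0 := rfl
    have e2 : (inr d).g = d := rfl
    rw [mul_f, hg2, mul_f, hg1, mul_f, inv_f, inv_f, hvg, hvf, e1, e2, zero_add, map_zero, map_zero,
      add_zero, neg_zero, tr_zero, tr_zero, map_add, tr_single, tr_single, zero_add]
  have hwg : ((C * v * C⁻¹ * v⁻¹ : G) : W).g = 0 := by
    show (inr d * (v : W) * (inr d)⁻¹ * (v : W)⁻¹).g = _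
    rw [mul_g, mul_g, mul_g, inv_g, inv_g, hvg]
    abel
  have hB : B ((C * v * C⁻¹ * v⁻¹ : G) : W).f ((C * v * C⁻¹ * v⁻¹ : G) : W).f = 0 := by
    have h5 : ((C * v * C⁻¹ * v⁻¹ : G) : W) ^ 2 = 1 := congrArg G.subtype hsq
    rw [sq_of_g_zero _ hwg] at h5
    exact congrArg W.z h5
  rw [hw] at hB
  simp only [map_add, LinearMap.add_apply, B_single] at hB
  have hn := congrFun hB n
  simp only [Pi.add_apply, Pi.zero_apply] at hn
  have hval : ∀ a : L, ∀ b : L, a = b → χ a n = χ b n := fun a b h => by rw [h]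
  have e1 := hval (N + d - 0) (d + N) (by abel)
  have e2 := hval (0 - (N + d)) (-(d + N)) (by abel)
  have e3 := hval (d - N) (d - N) rfl
  have e4 := hval (N - d) (-(d - N)) (by abel)
  have f1 := hval (N + d - d) N (by abel)
  have f2 := hval (d - (N + d)) (-N) (by abel)
  have f3 := hval (N - 0) N (by abel)
  have f4 := hval (0 - N) (-N) (by abel)
  have f5 := hval (N + d - N) d (by abel)
  have f6 := hval (N - (N + d)) (-d) (by abel)
  have f7 := hval (d - 0) d (by abel)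
  have f8 := hval (0 - d) (-d) (by abel)
  have g1 := hval (d - d) 0 (by abel)
  have g2 := hval (N + d - (N + d)) 0 (by abel)
  have g3 := hval (0 - 0 : L) 0 (by abel)
  have g4 := hval (N - N) 0 (by abel)
  rw [e1, e2, e4, f1, f2, f3, f4, f5, f6, f7, f8, g1, g2, g3, g4, h1, h2, h3, h4] at hn
  have key : ∀ (a1 a2 a3 a4 a5 : ZMod 2),
      a5 + a2 + (a3 + 0) + (a1 + a5 + (1 + a3)) + (a4 + 0 + (a5 + a2) + (0 + a4 + (a1 + a5))) = 0 →
      False := by decide
  exact key _ _ _ _ _ hn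

theorem result : ∃ (G : Type) (_ : Group G), Group.FG G ∧
    Group.IsSolvable G ∧ SolubleByFinite G ∧ InfStar (ExpByNilpotent 2) G ∧
    (∀ x y : G, ExpByNilpotent 2 (Subgroup.closure ({x, y⁻¹ * x * y} : Set G))) ∧
    ¬ ExpByFiniteByNilpotent 2 G := by
  refine ⟨G, inferInstance, inferInstance, inferInstance, ?_, ?_, all_pairs,
    not_class⟩
  · exact ⟨⊤, inferInstance, inferInstance, inferInstance⟩
  · intro S hS
    obtain ⟨x, hx, y, hy, hxy⟩ := hS.nontrivial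
    exact ⟨x, hx, y, hy, hxy, all_pairs x y⟩

end Pool.Agent.Results.MP_e0c8e7_al.ExponentTwo
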